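import Pool.Agent.TH180.Glue

set_option autoImplicit false

open scoped Manifold ContDiff
open Pool.Agent.TH180

namespace Pool.Agent.Results.MP_3413ae_ag.BlowUpPositiveHSC

/-- A blow-up of the Hirzebruch surface `F₀ = ℙ¹ × ℙ¹` admits a Kähler metric of positive
holomorphic sectional curvature: there are a compact Hausdorff complex surface `X` and a
holomorphic map `π : X → ℙ¹ × ℙ¹` which is the blow-up of the two points `(0, ∞)` and `(∞, 0)`,
and a Kähler metric on `X` whose holomorphic sectional curvature is positive at every point in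
every direction. -/
theorem result : ∃ (X : Type) (_ : TopologicalSpace X) (_ : ChartedSpace C2 X)
    (π : X → P1 × P1), T2Space X ∧ CompactSpace X ∧ IsManifold 𝓘(ℂ, C2) ω X ∧
      IsBlowUp π {(((0 : ℂ) : P1), OnePoint.infty), (OnePoint.infty, ((0 : ℂ) : P1))} ∧
      ∃ G : KahlerMetric X, G.HasPositiveHSC := by
  refine ⟨Surf, inferInstance, instX, blowDown, t2Space_X, compactSpace_X, isManifold_X, ?_,
    metX, metX_pos⟩
  rw [← range_cen]
  exact isBlowUp_blowDown

end Pool.Agent.Results.MP_3413ae_ag.BlowUpPositiveHSC
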